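import Mathlib
import Pool.Agent.Q13.LC.Final

set_option autoImplicit false

/-!
# A non-evasive simplicial 4-ball that is not locally constructible

The definitions `IsCx`, `realization`, `IsBall`, `IsFacet`, `NonEvasive`, `SameFace`, `LCStage`,
`AtMostTwo`, `IsLC` are in `Pool.Agent.H933R3.Defs`.
-/

namespace Pool.Agent.Results.MP_9638d9_co.NonEvasiveNotLC

open Pool.Agent.H933R3

/-- There is a simplicial ball, of dimension 4, that is non-evasive but not LC. -/
theorem result : ∃ (n : ℕ) (K : Finset (Finset (Fin n))),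
    IsCx K ∧ IsBall 4 K ∧ NonEvasive K ∧ ¬ IsLC 4 K :=
  ⟨13, cx 13 Pool.Agent.Q13.LC.Cm, Pool.Agent.Q13.LC.isCx_C, Pool.Agent.Q13.LC.isBall_C,
    Pool.Agent.Q13.LC.nonEvasive_C, Pool.Agent.Q13.LC.not_LC⟩

end Pool.Agent.Results.MP_9638d9_co.NonEvasiveNotLC
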